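import Mathlib
set_option autoImplicit false
open Polynomial

namespace Pool.Agent.Results.MP_6a5936_nt.PreperiodFormula

lemma C_dvd_iff_map (k : ℕ) (f : ℤ[X]) :
    (C (k : ℤ) ∣ f) ↔ f.map (Int.castRingHom (ZMod k)) = 0 := by
  rw [C_dvd_iff_dvd_coeff]
  constructor
  · intro h
    ext i
    rw [coeff_map, coeff_zero]
    exact (ZMod.intCast_zmod_eq_zero_iff_dvd _ _).2 (h i)
  · intro h i
    have := congrArg (fun g => g.coeff i) h
    simp only [coeff_map, coeff_zero] at this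
    exact (ZMod.intCast_zmod_eq_zero_iff_dvd _ _).1 this

lemma frob (p s : ℕ) [hp : Fact p.Prime] :
    ∃ D : ℤ[X], (X - 1 : ℤ[X]) ^ (p ^ s) = (X ^ (p ^ s) - 1) + C (p : ℤ) * D := by
  have h : C (p : ℤ) ∣ ((X - 1 : ℤ[X]) ^ (p ^ s) - (X ^ (p ^ s) - 1)) := by
    rw [C_dvd_iff_map]
    simp only [Polynomial.map_sub, Polynomial.map_pow, Polynomial.map_X, Polynomial.map_one]
    rw [sub_pow_char_pow, one_pow, sub_self]
  obtain ⟨D, hD⟩ := h
  exact ⟨D, by rw [← hD]; ring⟩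

lemma phi_eq (p s : ℕ) [hp : Fact p.Prime] :
    ∃ W : ℤ[X], (∑ j ∈ Finset.range p, ((X : ℤ[X]) ^ (p ^ s)) ^ j)
      = (X - 1) ^ ((p - 1) * p ^ s) + C (p : ℤ) * W := by
  have h : C (p : ℤ) ∣ ((∑ j ∈ Finset.range p, ((X : ℤ[X]) ^ (p ^ s)) ^ j)
      - (X - 1) ^ ((p - 1) * p ^ s)) := by
    rw [C_dvd_iff_map]
    have h1 : (X - 1 : (ZMod p)[X]) ^ (p ^ s) ≠ 0 := by
      apply pow_ne_zero
      rw [← C_1]
      exact X_sub_C_ne_zero 1
    have h2 : ((X : (ZMod p)[X]) ^ (p ^ s) - 1) = (X - 1) ^ (p ^ s) := by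
      rw [sub_pow_char_pow, one_pow]
    have h3 : ((X : (ZMod p)[X]) ^ (p ^ s) - 1) * (∑ j ∈ Finset.range p, ((X : (ZMod p)[X]) ^ (p ^ s)) ^ j)
        = ((X : (ZMod p)[X]) ^ (p ^ s) - 1) * (X - 1) ^ ((p - 1) * p ^ s) := by
      rw [mul_geom_sum, h2, ← pow_add, ← pow_mul]
      have e1 : p ^ s * p = p ^ (s + 1) := by ring
      have e2 : p ^ s + (p - 1) * p ^ s = p ^ (s + 1) := by
        have := hp.out.one_le
        obtain ⟨r, hr⟩ : ∃ r, p = r + 1 := ⟨p - 1, by omega⟩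
        have h' : p - 1 = r := by omega
        rw [h', pow_succ]
        nth_rewrite 4 [hr]
        ring
      rw [e1, e2, sub_pow_char_pow, one_pow]
    have h4 := mul_left_cancel₀ (by rw [h2]; exact h1) h3
    simp only [Polynomial.map_sub, Polynomial.map_pow, Polynomial.map_X, Polynomial.map_one,
      Polynomial.map_sum]
    rw [h4, sub_self]
  obtain ⟨W, hW⟩ := h
  exact ⟨W, by rw [← hW]; ring⟩

/-- torsion-freeness modulo a monic polynomial -/
lemma tf (k l : ℕ) (hk : 0 < k) (G B A H : ℤ[X]) (hG : G.Monic)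
    (h : C (k : ℤ) * B = C (k : ℤ) * (C (l : ℤ) * A) + G * H) :
    ∃ H', B = C (l : ℤ) * A + G * H' := by
  have h1 : C (k : ℤ) ∣ G * H := ⟨B - C (l : ℤ) * A, by rw [mul_sub, h]; ring⟩
  have h2 : C (k : ℤ) ∣ H := by
    rw [C_dvd_iff_map] at h1 ⊢
    rw [Polynomial.map_mul] at h1
    exact ((hG.map (Int.castRingHom (ZMod k))).mul_right_eq_zero_iff).1 h1
  obtain ⟨H', hH'⟩ := h2
  refine ⟨H', ?_⟩
  have h3 : (C (k : ℤ)) ≠ 0 := by
    rw [Ne, C_eq_zero]
    exact_mod_cast hk.ne'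
  apply mul_left_cancel₀ h3
  rw [h, hH']
  ring

/-- first nilpotency statement, as an explicit representation -/
lemma n1aux (p s : ℕ) [hp : Fact p.Prime] (e : ℕ) :
    ∃ A B : ℤ[X], (X ^ (p ^ s) - 1) * (X - 1 : ℤ[X]) ^ (e * ((p - 1) * p ^ s))
      = C ((p : ℤ) ^ e) * A + (X ^ (p ^ (s + 1)) - 1) * B := by
  obtain ⟨W, hW⟩ := phi_eq p s
  induction e with
  | zero => exact ⟨(X ^ (p ^ s) - 1), 0, by simp⟩
  | succ e ih =>
    obtain ⟨A, B, hAB⟩ := ih
    have hgs : ((X : ℤ[X]) ^ (p ^ s) - 1) * (∑ j ∈ Finset.range p, ((X : ℤ[X]) ^ (p ^ s)) ^ j)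
        = X ^ (p ^ (s + 1)) - 1 := by
      rw [mul_geom_sum, ← pow_mul, pow_succ]
    have hz : (X - 1 : ℤ[X]) ^ ((p - 1) * p ^ s)
        = (∑ j ∈ Finset.range p, ((X : ℤ[X]) ^ (p ^ s)) ^ j) - C (p : ℤ) * W := by
      rw [hW]; ring
    refine ⟨-(W * A), (X - 1 : ℤ[X]) ^ (e * ((p - 1) * p ^ s)) - C (p : ℤ) * W * B, ?_⟩
    have : (X ^ (p ^ s) - 1) * (X - 1 : ℤ[X]) ^ ((e + 1) * ((p - 1) * p ^ s))
        = (X ^ (p ^ s) - 1) * (X - 1 : ℤ[X]) ^ (e * ((p - 1) * p ^ s)) *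
          (X - 1 : ℤ[X]) ^ ((p - 1) * p ^ s) := by
      rw [mul_assoc, ← pow_add]; congr 2; ring
    rw [this, hz, mul_sub]
    have h2 : (X ^ (p ^ s) - 1) * (X - 1 : ℤ[X]) ^ (e * ((p - 1) * p ^ s)) *
        (∑ j ∈ Finset.range p, ((X : ℤ[X]) ^ (p ^ s)) ^ j)
        = (X ^ (p ^ (s + 1)) - 1) * (X - 1 : ℤ[X]) ^ (e * ((p - 1) * p ^ s)) := by
      rw [← hgs]; ring
    rw [h2, hAB, pow_succ (p : ℤ) e, C_mul]
    ring

lemma n1 (p s : ℕ) [hp : Fact p.Prime] (e : ℕ) :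
    ∃ A B : ℤ[X], (X - 1 : ℤ[X]) ^ (e * ((p - 1) * p ^ s) + p ^ s)
      = C ((p : ℤ) ^ e) * A + (X ^ (p ^ (s + 1)) - 1) * B := by
  obtain ⟨D, hD⟩ := frob p s
  induction e with
  | zero => exact ⟨(X - 1 : ℤ[X]) ^ (0 * ((p - 1) * p ^ s) + p ^ s), 0, by simp⟩
  | succ e ih =>
    obtain ⟨A, B, hAB⟩ := ih
    obtain ⟨A', B', hAB'⟩ := n1aux p s (e + 1)
    obtain ⟨k, hk⟩ : ∃ k, (p - 1) * p ^ s = p ^ s + k := by
      have h2 := hp.out.two_le
      have : 1 * p ^ s ≤ (p - 1) * p ^ s := Nat.mul_le_mul_right _ (by omega)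
      exact ⟨(p - 1) * p ^ s - p ^ s, by omega⟩
    have e1 : (e + 1) * ((p - 1) * p ^ s) = (e * ((p - 1) * p ^ s) + p ^ s) + k := by
      rw [add_mul, one_mul]
      nth_rewrite 2 [hk]
      ring
    have e2 : (X - 1 : ℤ[X]) ^ ((e + 1) * ((p - 1) * p ^ s) + p ^ s)
        = (X ^ (p ^ s) - 1) * (X - 1 : ℤ[X]) ^ ((e + 1) * ((p - 1) * p ^ s))
          + C (p : ℤ) * D * ((X - 1 : ℤ[X]) ^ (e * ((p - 1) * p ^ s) + p ^ s) * (X - 1 : ℤ[X]) ^ k) := by
      rw [pow_add, hD, ← pow_add, ← e1]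
      ring
    refine ⟨A' + D * A * (X - 1) ^ k, B' + C (p : ℤ) * D * B * (X - 1) ^ k, ?_⟩
    rw [e2, hAB', hAB, pow_succ (p : ℤ) e, C_mul]
    ring

lemma expo (p s e : ℕ) (hp : 2 ≤ p) (he : 1 ≤ e) :
    (e + 1) * ((p - 1) * p ^ s) + p ^ s ≤ e * ((p - 1) * p ^ (s + 1)) + p ^ (s + 1) - 1 := by
  obtain ⟨r, rfl⟩ : ∃ r, p = r + 2 := ⟨p - 2, by omega⟩
  obtain ⟨f, rfl⟩ : ∃ f, e = f + 1 := ⟨e - 1, by omega⟩
  have h1 : r + 2 - 1 = r + 1 := by omega
  rw [h1]
  have h2 : 1 ≤ (r + 2) ^ s := Nat.one_le_pow _ _ (by omega)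
  have h3 : (f + 1 + 1) * ((r + 1) * (r + 2) ^ s) + (r + 2) ^ s + 1 ≤
      (f + 1) * ((r + 1) * (r + 2) ^ (s + 1)) + (r + 2) ^ (s + 1) := by
    rw [pow_succ]
    generalize (r + 2) ^ s = q at h2
    nlinarith [Nat.zero_le (f * r), Nat.zero_le (r * q), Nat.zero_le (f * q), Nat.zero_le (f * r * q),
      Nat.zero_le (f * r * r * q), Nat.zero_le (r * r * q)]
  omega

lemma n2 (p s : ℕ) [hp : Fact p.Prime] (e : ℕ) (he : 1 ≤ e) (A B : ℤ[X])
    (h : (X - 1 : ℤ[X]) ^ (e * ((p - 1) * p ^ s) + p ^ s - 1)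
      = C ((p : ℤ) ^ e) * B + (X ^ (p ^ (s + 1)) - 1) * A) : False := by
  obtain ⟨W, hW⟩ := phi_eq p s
  obtain ⟨D, hD⟩ := frob p s
  have hp2 := hp.out.two_le
  have hq : 1 ≤ p ^ s := Nat.one_le_pow _ _ (by omega)
  have hr : p ^ s ≤ (p - 1) * p ^ s := Nat.le_mul_of_pos_left _ (by omega)
  set Φ : ℤ[X] := ∑ j ∈ Finset.range p, ((X : ℤ[X]) ^ (p ^ s)) ^ j with hΦ
  have hgs : ((X : ℤ[X]) ^ (p ^ s) - 1) * Φ = X ^ (p ^ (s + 1)) - 1 := by
    rw [hΦ, mul_geom_sum, ← pow_mul, pow_succ]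
  have hm1 : ((X : ℤ[X]) ^ (p ^ s) - 1).Monic := by
    rw [← C_1]; exact monic_X_pow_sub_C 1 (by omega)
  have hm2 : ((X : ℤ[X]) ^ (p ^ (s + 1)) - 1).Monic := by
    rw [← C_1]; exact monic_X_pow_sub_C 1 (by positivity)
  have hΦm : Φ.Monic := by
    rw [← hgs] at hm2
    exact hm1.of_mul_monic_left hm2
  -- W(1) = 1
  have hW1 : W.eval 1 = 1 := by
    have := congrArg (Polynomial.eval 1) hW
    rw [hΦ] at this
    simp only [eval_finsetSum, eval_pow, eval_X, one_pow, Finset.sum_const, Finset.card_range,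
      eval_add, eval_sub, eval_one, sub_self, eval_mul, eval_C] at this
    rw [zero_pow (by omega), zero_add] at this
    have hp0 : (p : ℤ) ≠ 0 := by exact_mod_cast (by omega : p ≠ 0)
    have h' : (p : ℤ) * (W.eval 1) = p * 1 := by
      rw [← this]; simp
    exact mul_left_cancel₀ hp0 h'
  -- mod Φ
  have hmod : ∀ f : ℕ, ∃ Y : ℤ[X], (X - 1 : ℤ[X]) ^ (f * ((p - 1) * p ^ s))
      = C ((p : ℤ) ^ f) * (-W) ^ f + Φ * Y := by
    intro f
    induction f with
    | zero => exact ⟨0, by simp⟩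
    | succ f ih =>
      obtain ⟨Y, hY⟩ := ih
      have hz : (X - 1 : ℤ[X]) ^ ((p - 1) * p ^ s) = Φ - C (p : ℤ) * W := by
        rw [hW]; ring
      refine ⟨C ((p : ℤ) ^ f) * (-W) ^ f + Y * (Φ - C (p : ℤ) * W), ?_⟩
      rw [add_mul, one_mul, pow_add, hY, hz, pow_succ, C_mul, pow_succ]
      ring
  obtain ⟨Y, hY⟩ := hmod e
  have hexp : e * ((p - 1) * p ^ s) + p ^ s - 1 = e * ((p - 1) * p ^ s) + (p ^ s - 1) := by omega
  have h1 : ∃ H', B = (-W) ^ e * (X - 1) ^ (p ^ s - 1) + Φ * H' := by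
    have := tf (p ^ e) 1 (by positivity) Φ B ((-W) ^ e * (X - 1) ^ (p ^ s - 1))
      (Y * (X - 1) ^ (p ^ s - 1) - (X ^ (p ^ s) - 1) * A) hΦm (by
        rw [hexp, pow_add, hY, ← hgs] at h
        push_cast at h ⊢
        rw [C_1]
        linear_combination -h)
    obtain ⟨H', hH'⟩ := this
    exact ⟨H', by simpa using hH'⟩
  obtain ⟨H1, hH1⟩ := h1
  -- mod X^q - 1
  have hz2 : ∃ A2 B2 : ℤ[X], (X - 1 : ℤ[X]) ^ (e * ((p - 1) * p ^ s) + p ^ s - 1)
      = C ((p : ℤ) ^ (e + 1)) * A2 + (X ^ (p ^ s) - 1) * B2 := by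
    rcases Nat.eq_zero_or_pos s with hs | hs
    · subst hs
      refine ⟨0, (X - 1) ^ (e * ((p - 1) * p ^ 0) + p ^ 0 - 1 - 1), ?_⟩
      have h0 : e * ((p - 1) * p ^ 0) + p ^ 0 - 1 = 1 + (e * ((p - 1) * p ^ 0) + p ^ 0 - 1 - 1) := by
        have : 1 * 1 ≤ e * ((p - 1) * p ^ 0) := Nat.mul_le_mul he (by simpa using (by omega : 1 ≤ p - 1))
        omega
      rw [mul_zero, zero_add]
      conv_lhs => rw [h0, pow_add, pow_one]
      simp
    · obtain ⟨s', rfl⟩ : ∃ s', s = s' + 1 := ⟨s - 1, by omega⟩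
      obtain ⟨A2, B2, hAB⟩ := n1 p s' (e + 1)
      have hle := expo p s' e hp2 he
      obtain ⟨k, hk⟩ := Nat.exists_eq_add_of_le hle
      refine ⟨A2 * (X - 1) ^ k, B2 * (X - 1) ^ k, ?_⟩
      rw [hk, pow_add, hAB]
      ring
  obtain ⟨A2, B2, h2⟩ := hz2
  have h3 : ∃ H', B = C (p : ℤ) * A2 + (X ^ (p ^ s) - 1) * H' := by
    apply tf (p ^ e) p (by positivity) (X ^ (p ^ s) - 1) B A2 (B2 - Φ * A) hm1
    rw [h2, ← hgs, pow_succ, C_mul] at h
    push_cast at h ⊢
    linear_combination -h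
  obtain ⟨H2, hH2⟩ := h3
  -- combine modulo p
  have h4 : ∃ U V : ℤ[X], (-W) ^ e * (X - 1) ^ (p ^ s - 1) = C (p : ℤ) * U + (X - 1) ^ (p ^ s) * V := by
    obtain ⟨k, hk⟩ := Nat.exists_eq_add_of_le hr
    refine ⟨A2 - D * H2 - W * H1, H2 - (X - 1) ^ k * H1, ?_⟩
    have hΦ' : Φ = (X - 1) ^ (p ^ s) * (X - 1) ^ k + C (p : ℤ) * W := by
      rw [hW, hk, pow_add]
    have hX : ((X : ℤ[X]) ^ (p ^ s) - 1) = (X - 1) ^ (p ^ s) - C (p : ℤ) * D := by
      rw [hD]; ring
    rw [hX] at hH2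
    rw [hΦ'] at hH1
    linear_combination hH2 - hH1
  obtain ⟨U, V, hUV⟩ := h4
  have h5 := congrArg (Polynomial.map (Int.castRingHom (ZMod p))) hUV
  simp only [Polynomial.map_mul, Polynomial.map_pow, Polynomial.map_sub, Polynomial.map_X,
    Polynomial.map_one, Polynomial.map_add, Polynomial.map_C, Polynomial.map_neg] at h5
  have h6 : (Int.castRingHom (ZMod p)) (p : ℤ) = 0 := by simp
  rw [h6, C_0, zero_mul, zero_add] at h5
  have h7 : (X - 1 : (ZMod p)[X]) ^ (p ^ s - 1) ≠ 0 := by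
    apply pow_ne_zero
    rw [← C_1]
    exact X_sub_C_ne_zero 1
  have h8 : p ^ s = (p ^ s - 1) + 1 := by omega
  have h9 : (-(W.map (Int.castRingHom (ZMod p)))) ^ e = (X - 1) * V.map (Int.castRingHom (ZMod p)) := by
    apply mul_left_cancel₀ h7
    have : (X - 1 : (ZMod p)[X]) ^ (p ^ s) = (X - 1) ^ (p ^ s - 1) * (X - 1) := by
      conv_lhs => rw [h8]
      rw [pow_succ]
    rw [this] at h5
    linear_combination h5
  have h10 := congrArg (Polynomial.eval 1) h9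
  simp only [eval_pow, eval_neg, eval_mul, eval_sub, eval_X, eval_one, sub_self, zero_mul] at h10
  have h11 : (W.map (Int.castRingHom (ZMod p))).eval 1 = 1 := by
    have := Polynomial.eval_map_apply (Int.castRingHom (ZMod p)) (p := W) (x := 1)
    rw [map_one] at this
    rw [this, hW1, map_one]
  rw [h11] at h10
  have : ((-1 : ZMod p)) ^ e ≠ 0 := pow_ne_zero _ (neg_ne_zero.2 one_ne_zero)
  exact this h10


/-- `(1+X)^M` lies in the ideal generated by `(1+X)^(M+1)`, `X^n - 1` and `k`. -/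
def Stab (M n k : ℕ) : Prop :=
  ∃ U V W : ℤ[X], (1 + X : ℤ[X]) ^ M = (1 + X) ^ (M + 1) * U + (X ^ n - 1) * V + C (k : ℤ) * W

lemma comax (p e n M : ℕ) (hp : p.Prime) (g h A B : ℤ[X]) (hgh : g * h = X ^ n - 1)
    (hh : ¬ (p : ℤ) ∣ h.eval (-1)) (hM : (1 + X : ℤ[X]) ^ M = g * A + C ((p : ℤ) ^ e) * B) :
    Stab M n (p ^ e) := by
  have h1 : IsCoprime (h.eval (-1)) ((p : ℤ) ^ e) := by
    apply IsCoprime.pow_right
    apply IsCoprime.symm
    rw [(Nat.prime_iff_prime_int.1 hp).coprime_iff_not_dvd]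
    exact hh
  obtain ⟨u, v, huv⟩ := h1
  obtain ⟨q, hq⟩ : (X - C (-1) : ℤ[X]) ∣ (h - C (h.eval (-1))) := X_sub_C_dvd_sub_C_eval
  have hq' : h = (1 + X) * q + C (h.eval (-1)) := by
    rw [C_neg, C_1] at hq
    linear_combination hq
  have huv' : (C u : ℤ[X]) * C (h.eval (-1)) + C v * C ((p : ℤ) ^ e) = 1 := by
    rw [← C_mul, ← C_mul, ← C_add, huv, C_1]
  refine ⟨-(q * C u), A * C u, B * h * C u + C v * (1 + X) ^ M, ?_⟩
  have key : (1 + X : ℤ[X]) ^ M = (1 + X) ^ M * (C u * h) - (1 + X) ^ (M + 1) * (q * C u)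
      + C ((p : ℤ) ^ e) * (C v * (1 + X) ^ M) := by
    have : (C u : ℤ[X]) * h = (1 + X) * q * C u + C u * C (h.eval (-1)) := by
      conv_lhs => rw [hq']
      ring
    rw [this, pow_succ]
    linear_combination (-(1 + X : ℤ[X]) ^ M) * huv'
  push_cast
  linear_combination key + C u * h * hM + C u * A * hgh

lemma Stab.mul {M n a b : ℕ} (hab : a.Coprime b) (ha : Stab M n a) (hb : Stab M n b) :
    Stab M n (a * b) := by
  obtain ⟨U1, V1, W1, h1⟩ := ha
  obtain ⟨U2, V2, W2, h2⟩ := hb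
  obtain ⟨u, v, huv⟩ := Nat.isCoprime_iff_coprime.2 hab
  have huv' : (C u : ℤ[X]) * C (a : ℤ) + C v * C (b : ℤ) = 1 := by
    rw [← C_mul, ← C_mul, ← C_add, huv, C_1]
  refine ⟨C u * C (a : ℤ) * U2 + C v * C (b : ℤ) * U1, C u * C (a : ℤ) * V2 + C v * C (b : ℤ) * V1,
    C u * W2 + C v * W1, ?_⟩
  have : (1 + X : ℤ[X]) ^ M = C u * C (a : ℤ) * (1 + X) ^ M + C v * C (b : ℤ) * (1 + X) ^ M := by
    linear_combination (-(1 + X : ℤ[X]) ^ M) * huv'
  rw [this]
  nth_rewrite 1 [h2]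
  rw [h1]
  push_cast
  rw [C_mul]
  ring

lemma stab_of_primes (M n : ℕ) (m : ℕ) (hm : 0 < m)
    (h : ∀ p : ℕ, p.Prime → p ∣ m → Stab M n (p ^ m.factorization p)) : Stab M n m := by
  induction m using Nat.recOnPosPrimePosCoprime with
  | zero => omega
  | one => exact ⟨0, 0, (1 + X) ^ M, by simp⟩
  | prime_pow p k hp hk =>
    have := h p hp (dvd_pow_self p hk.ne')
    rwa [hp.factorization_pow, Finsupp.single_eq_same] at this
  | coprime a b ha hb hab iha ihb =>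
    apply Stab.mul hab
    · apply iha (by omega)
      intro p hp hpa
      have h1 := h p hp (hpa.mul_right b)
      have h2 : (a * b).factorization p = a.factorization p :=
        Nat.factorization_eq_of_coprime_left hab (by
          rw [Nat.mem_primeFactorsList (by omega)]; exact ⟨hp, hpa⟩)
      rwa [h2] at h1
    · apply ihb (by omega)
      intro p hp hpb
      have h1 := h p hp (hpb.mul_left a)
      have h2 : (a * b).factorization p = b.factorization p :=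
        Nat.factorization_eq_of_coprime_right hab (by
          rw [Nat.mem_primeFactorsList (by omega)]; exact ⟨hp, hpb⟩)
      rwa [h2] at h1


/-- the shift operator as a linear map -/
def shift (m n : ℕ) : Module.End ℤ (ZMod n → ZMod m) :=
  LinearMap.funLeft ℤ (ZMod m) (fun i : ZMod n => i + 1)

lemma shift_apply (m n : ℕ) (a : ZMod n → ZMod m) (i : ZMod n) : shift m n a i = a (i + 1) := rfl

lemma shift_pow_apply (m n k : ℕ) (a : ZMod n → ZMod m) (i : ZMod n) :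
    ((shift m n) ^ k) a i = a (i + k) := by
  induction k generalizing a with
  | zero => simp
  | succ k ih =>
    rw [pow_succ, Module.End.mul_apply, ih, shift_apply]
    push_cast
    rw [add_assoc]

/-- The cyclic sum map `T` on `(ℤ/m)^n`, indices read modulo `n`. -/
def T (m n : ℕ) (a : ZMod n → ZMod m) : ZMod n → ZMod m := fun i => a i + a (i + 1)

lemma T_eq (m n : ℕ) : T m n = ⇑(1 + shift m n) := by
  funext a i
  simp [T, shift_apply]

lemma T_iter (m n k : ℕ) (a : ZMod n → ZMod m) :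
    (T m n)^[k] a = aeval (shift m n) ((1 + X : ℤ[X]) ^ k) a := by
  rw [T_eq, map_pow, map_add, map_one, aeval_X, Module.End.pow_apply]

lemma aeval_Xn (m n : ℕ) : aeval (shift m n) (X ^ n - 1 : ℤ[X]) = 0 := by
  rw [map_sub, map_pow, aeval_X, map_one]
  ext a i
  simp [shift_pow_apply]

lemma aeval_Cm (m n : ℕ) (W : ℤ[X]) : aeval (shift m n) (C (m : ℤ) * W) = 0 := by
  rw [map_mul, aeval_C]
  ext a i
  simp

lemma mem_of_aeval_single (m n : ℕ) (hn : 0 < n) (F : ℤ[X])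
    (h : aeval (shift m n) F (Pi.single 0 1) = 0) :
    ∃ V W : ℤ[X], F = (X ^ n - 1) * V + C (m : ℤ) * W := by
  have : NeZero n := ⟨hn.ne'⟩
  set R := F %ₘ (X ^ n - 1 : ℤ[X]) with hR
  have hmon : (X ^ n - 1 : ℤ[X]).Monic := by
    rw [← C_1]; exact monic_X_pow_sub_C 1 hn.ne'
  have hF : F = R + (X ^ n - 1) * (F /ₘ (X ^ n - 1)) := (modByMonic_add_div F _).symm
  have hdeg : R.natDegree < n := by
    have h1 : (X ^ n - 1 : ℤ[X]).natDegree = n := by
      rw [← C_1]; exact natDegree_X_pow_sub_C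
    have h2 : (X ^ n - 1 : ℤ[X]) ≠ 1 := by
      intro h0
      rw [h0] at h1
      simp at h1
      omega
    have := natDegree_modByMonic_lt F hmon h2
    rwa [h1] at this
  have h3 : aeval (shift m n) R (Pi.single 0 1) = 0 := by
    rw [hF, map_add, map_mul, aeval_Xn, zero_mul, add_zero] at h
    exact h
  rw [aeval_eq_sum_range' hdeg] at h3
  have h4 : ∀ i : ℕ, (m : ℤ) ∣ R.coeff i := by
    intro i
    by_cases hi : i < n
    · have h5 := congrFun h3 (-(i : ZMod n))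
      rw [LinearMap.sum_apply, Finset.sum_apply] at h5
      rw [Finset.sum_eq_single i] at h5
      · rw [LinearMap.smul_apply, Pi.smul_apply, shift_pow_apply, neg_add_cancel,
          Pi.single_eq_same, Pi.zero_apply, zsmul_eq_mul, mul_one] at h5
        exact (ZMod.intCast_zmod_eq_zero_iff_dvd _ _).1 h5
      · intro j hj hji
        simp only [LinearMap.smul_apply, Pi.smul_apply, shift_pow_apply]
        rw [Pi.single_eq_of_ne, smul_zero]
        intro h6
        apply hji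
        have h7 : (j : ZMod n) = (i : ZMod n) := by
          have := congrArg (fun x => x + (i : ZMod n)) h6
          simpa [add_comm, add_left_comm] using this
        rw [ZMod.natCast_eq_natCast_iff'] at h7
        rw [Nat.mod_eq_of_lt (Finset.mem_range.1 hj), Nat.mod_eq_of_lt hi] at h7
        exact h7
      · intro h6
        exact absurd (Finset.mem_range.2 hi) h6
    · rw [coeff_eq_zero_of_natDegree_lt (by omega)]
      exact dvd_zero _
  obtain ⟨W, hW⟩ := (C_dvd_iff_dvd_coeff _ _).2 h4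
  exact ⟨F /ₘ (X ^ n - 1), W, by rw [← hW, add_comm]; exact hF⟩

/-- upper bound in operator form -/
lemma exists_period (M m n : ℕ) (hm : 0 < m) (hn : 0 < n) (h : Stab M n m) :
    ∃ P : ℕ, 0 < P ∧ ∀ a : ZMod n → ZMod m, (T m n)^[M + P] a = (T m n)^[M] a := by
  have : NeZero n := ⟨hn.ne'⟩
  have : NeZero m := ⟨hm.ne'⟩
  obtain ⟨U, V, W, hUVW⟩ := h
  set t := aeval (shift m n) (1 + X : ℤ[X]) with ht
  set u := aeval (shift m n) U with hu
  have hT : ∀ k a, (T m n)^[k] a = (t ^ k) a := by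
    intro k a; rw [T_iter, map_pow]
  have h1 : t ^ M = t ^ (M + 1) * u := by
    have := congrArg (aeval (shift m n)) hUVW
    rw [map_add, map_add, aeval_Cm, map_mul (aeval (shift m n)) (X ^ n - 1), aeval_Xn, zero_mul,
      add_zero, add_zero, map_mul, map_pow, map_pow] at this
    exact this
  have hcomm : Commute t u := by
    rw [ht, hu]
    exact (Commute.all (1 + X : ℤ[X]) U).map (aeval (shift m n))
  have h2 : ∀ j : ℕ, t ^ M = t ^ (M + j) * u ^ j := by
    intro j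
    induction j with
    | zero => simp
    | succ j ih =>
      have e1 : t ^ (M + (j + 1)) * u ^ (j + 1) = (t ^ (M + 1) * u) * (t ^ j * u ^ j) := by
        rw [show M + (j + 1) = (M + 1) + j by ring, pow_add, pow_succ' u j]
        rw [mul_assoc, mul_assoc]
        congr 1
        rw [← mul_assoc, ← mul_assoc, (hcomm.pow_left j).eq]
      rw [e1, ← h1, ← mul_assoc, ← pow_add]
      exact ih
  -- finiteness
  obtain ⟨i, j, hij, heq⟩ : ∃ i j : ℕ, i < j ∧ ∀ a : ZMod n → ZMod m, (t ^ i) a = (t ^ j) a := by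
    obtain ⟨i, j, hne, h⟩ := Finite.exists_ne_map_eq_of_infinite
      (fun k : ℕ => (fun a : ZMod n → ZMod m => (t ^ k) a))
    rcases lt_or_gt_of_ne hne with h' | h'
    · exact ⟨i, j, h', fun a => congrFun h a⟩
    · exact ⟨j, i, h', fun a => (congrFun h a).symm⟩
  have heq' : t ^ i = t ^ j := LinearMap.ext heq
  refine ⟨j - i, by omega, fun a => ?_⟩
  rw [hT, hT]
  congr 1
  have e2 : t ^ M = t ^ M * (t ^ i * u ^ i) := by
    rw [← mul_assoc, ← pow_add]; exact h2 i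
  calc t ^ (M + (j - i)) = t ^ (j - i) * t ^ M := by rw [← pow_add]; congr 1; ring
    _ = t ^ (j - i) * (t ^ M * (t ^ i * u ^ i)) := by rw [← e2]
    _ = t ^ M * ((t ^ (j - i) * t ^ i) * u ^ i) := by
        rw [← mul_assoc, ← mul_assoc, ← mul_assoc, ← mul_assoc]
        rw [← pow_add, ← pow_add, ← pow_add, ← pow_add]
        congr 2; ring
    _ = t ^ M * (t ^ j * u ^ i) := by
        rw [← pow_add, Nat.sub_add_cancel hij.le]
    _ = t ^ M * (t ^ i * u ^ i) := by rw [heq']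
    _ = t ^ M := e2.symm

/-- lower bound in operator form -/
lemma stab_of_period (K m n P : ℕ) (hn : 0 < n) (hP : 0 < P)
    (h : (T m n)^[K + P] (Pi.single 0 1) = (T m n)^[K] (Pi.single 0 1)) : Stab K n m := by
  rw [T_iter, T_iter, ← sub_eq_zero, ← LinearMap.sub_apply, ← map_sub] at h
  obtain ⟨V, W, hVW⟩ := mem_of_aeval_single m n hn _ h
  obtain ⟨P', rfl⟩ : ∃ P', P = 1 + P' := ⟨P - 1, by omega⟩
  refine ⟨(1 + X) ^ P', -V, -W, ?_⟩
  have e1 : K + (1 + P') = (K + 1) + P' := by ring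
  rw [e1, pow_add] at hVW
  linear_combination -hVW


/-- The cycle length `P(a)`: the least positive `P` such that for some positive `N`,
`T^(k+P) a = T^k a` for all `k ≥ N`. -/
noncomputable def cycleLen (m n : ℕ) (a : ZMod n → ZMod m) : ℕ :=
  sInf {P : ℕ | 0 < P ∧ ∃ N : ℕ, 0 < N ∧ ∀ k : ℕ, N ≤ k → (T m n)^[k + P] a = (T m n)^[k] a}

/-- The pre-period `N(a)`: the least positive `N` such that
`T^(k+P(a)) a = T^k a` for all `k ≥ N`. -/
noncomputable def preperiod (m n : ℕ) (a : ZMod n → ZMod m) : ℕ :=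
  sInf {N : ℕ | 0 < N ∧ ∀ k : ℕ, N ≤ k → (T m n)^[k + cycleLen m n a] a = (T m n)^[k] a}

lemma iter_ge {α : Type*} (f : α → α) (a : α) (M P : ℕ) (h : f^[M + P] a = f^[M] a) :
    ∀ k, M ≤ k → f^[k + P] a = f^[k] a := by
  intro k hk
  obtain ⟨j, rfl⟩ := Nat.exists_eq_add_of_le hk
  rw [show M + j + P = j + (M + P) by ring, Function.iterate_add_apply, h,
    ← Function.iterate_add_apply, add_comm j M]

lemma iter_mul {α : Type*} (f : α → α) (a : α) (M P : ℕ) (h : f^[M + P] a = f^[M] a) :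
    ∀ j k, M ≤ k → f^[k + j * P] a = f^[k] a := by
  intro j
  induction j with
  | zero => intro k _; simp
  | succ j ih =>
    intro k hk
    rw [add_mul, one_mul, ← add_assoc, iter_ge f a M P h _ (by omega)]
    exact ih k hk

lemma cycleLen_spec (m n : ℕ) (hm : 0 < m) (hn : 0 < n) (a : ZMod n → ZMod m) :
    0 < cycleLen m n a ∧ ∃ N : ℕ, 0 < N ∧
      ∀ k : ℕ, N ≤ k → (T m n)^[k + cycleLen m n a] a = (T m n)^[k] a := by
  have : NeZero n := ⟨hn.ne'⟩
  have : NeZero m := ⟨hm.ne'⟩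
  have hne : {P : ℕ | 0 < P ∧ ∃ N : ℕ, 0 < N ∧
      ∀ k : ℕ, N ≤ k → (T m n)^[k + P] a = (T m n)^[k] a}.Nonempty := by
    obtain ⟨i, j, hij, heq⟩ : ∃ i j : ℕ, i < j ∧ (T m n)^[i] a = (T m n)^[j] a := by
      obtain ⟨i, j, hne, h⟩ := Finite.exists_ne_map_eq_of_infinite
        (fun k : ℕ => (T m n)^[k] a)
      rcases lt_or_gt_of_ne hne with h' | h'
      · exact ⟨i, j, h', h⟩
      · exact ⟨j, i, h', h.symm⟩
    refine ⟨j - i, by omega, i + 1, by omega, ?_⟩
    intro k hk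
    apply iter_ge (T m n) a i (j - i) _ k (by omega)
    rw [show i + (j - i) = j by omega, heq]
  exact Nat.sInf_mem hne

lemma preperiod_spec (m n : ℕ) (hm : 0 < m) (hn : 0 < n) (a : ZMod n → ZMod m) :
    0 < preperiod m n a ∧
      ∀ k : ℕ, preperiod m n a ≤ k → (T m n)^[k + cycleLen m n a] a = (T m n)^[k] a := by
  obtain ⟨_, N, hN⟩ := cycleLen_spec m n hm hn a
  have hne : {N : ℕ | 0 < N ∧
    ∀ k : ℕ, N ≤ k → (T m n)^[k + cycleLen m n a] a = (T m n)^[k] a}.Nonempty := ⟨N, hN⟩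
  exact Nat.sInf_mem hne

lemma preperiod_le (m n : ℕ) (hm : 0 < m) (hn : 0 < n) (a : ZMod n → ZMod m) (M P : ℕ)
    (hM : 0 < M) (hP : 0 < P) (h : (T m n)^[M + P] a = (T m n)^[M] a) : preperiod m n a ≤ M := by
  obtain ⟨hpos, N, hN0, hN⟩ := cycleLen_spec m n hm hn a
  apply Nat.sInf_le
  refine ⟨hM, fun k hk => ?_⟩
  have h1 := iter_mul (T m n) a M P h N k hk
  have h2 : (T m n)^[k + cycleLen m n a] a = (T m n)^[k + N * P + cycleLen m n a] a := by
    rw [show k + N * P + cycleLen m n a = (k + cycleLen m n a) + N * P by ring,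
      iter_mul (T m n) a M P h N (k + cycleLen m n a) (by omega)]
  rw [h2, hN (k + N * P) (by nlinarith), h1]

/-- from stabilisation to the upper bound -/
lemma preperiod_le_of_stab (m n : ℕ) (hm : 0 < m) (hn : 0 < n) (M : ℕ) (hM : 0 < M)
    (h : Stab M n m) (a : ZMod n → ZMod m) : preperiod m n a ≤ M := by
  obtain ⟨P, hP, hP'⟩ := exists_period M m n hm hn h
  exact preperiod_le m n hm hn a M P hM hP (hP' a)

/-- from non-stabilisation to the lower bound -/
lemma lt_preperiod_of_not_stab (m n : ℕ) (hm : 0 < m) (hn : 0 < n) (K : ℕ)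
    (h : ¬ Stab K n m) : K < preperiod m n (Pi.single 0 1) := by
  by_contra hle
  push Not at hle
  obtain ⟨_, h1⟩ := preperiod_spec m n hm hn (Pi.single 0 1)
  obtain ⟨hpos, _⟩ := cycleLen_spec m n hm hn (Pi.single 0 1)
  exact h (stab_of_period K m n _ hn hpos (h1 K hle))

/-- polynomial facts for even `n` -/
lemma comp_neg (L : ℕ) : ((X - 1 : ℤ[X]) ^ L).comp (-X) = (-1) ^ L * (1 + X) ^ L := by
  rw [pow_comp, sub_comp, X_comp, one_comp, ← mul_pow]
  congr 1
  ring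

lemma stab_even (n M p e : ℕ) (hp : p.Prime) (hn : 0 < n) (hev : Even n) (hM : 0 < M)
    (h : p ∣ n → e * Nat.totient (p ^ n.factorization p) + p ^ (n.factorization p - 1) ≤ M) :
    Stab M n (p ^ e) := by
  have : Fact p.Prime := ⟨hp⟩
  obtain ⟨n', hn'⟩ : p ^ n.factorization p ∣ n := Nat.ordProj_dvd n p
  have hcop : ¬ p ∣ n' := by
    have h1 := Nat.not_dvd_ordCompl hp hn.ne'
    have h2 : n / p ^ n.factorization p = n' :=
      Nat.div_eq_of_eq_mul_right (pow_pos hp.pos _) hn'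
    rwa [h2] at h1
  set t := n.factorization p with ht
  have hgh : ((-X : ℤ[X]) ^ (p ^ t) - 1) * (∑ j ∈ Finset.range n', ((-X : ℤ[X]) ^ (p ^ t)) ^ j)
      = X ^ n - 1 := by
    rw [mul_geom_sum, ← pow_mul, ← hn', hev.neg_pow]
  have hh : ¬ (p : ℤ) ∣ (∑ j ∈ Finset.range n', ((-X : ℤ[X]) ^ (p ^ t)) ^ j).eval (-1) := by
    simp only [eval_finsetSum, eval_pow, eval_neg, eval_X, neg_neg, one_pow, Finset.sum_const,
      Finset.card_range, nsmul_eq_mul, mul_one]
    exact_mod_cast hcop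
  rcases Nat.eq_zero_or_pos t with h0 | h0
  · obtain ⟨M', rfl⟩ : ∃ M', M = M' + 1 := ⟨M - 1, by omega⟩
    apply comax p e n (M' + 1) hp _ _ (-(1 + X) ^ M') 0 hgh hh
    rw [h0, pow_zero, pow_one, pow_succ]
    ring
  · have hpn : p ∣ n := (dvd_pow_self p h0.ne').trans ⟨n', hn'⟩
    have hle := h hpn
    obtain ⟨s, hs⟩ : ∃ s, t = s + 1 := ⟨t - 1, by omega⟩
    rw [hs] at hgh hh hle
    rw [Nat.totient_prime_pow_succ hp, Nat.add_sub_cancel, mul_comm (p ^ s) (p - 1)] at hle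
    obtain ⟨k, hk⟩ := Nat.exists_eq_add_of_le hle
    obtain ⟨A, B, hAB⟩ := n1 p s e
    have h1 := congrArg (fun F => F.comp (-X)) hAB
    beta_reduce at h1
    rw [comp_neg, add_comp, mul_comp, mul_comp, C_comp, sub_comp, one_comp, pow_comp, X_comp] at h1
    apply comax p e n M hp _ _ ((-1) ^ (e * ((p - 1) * p ^ s) + p ^ s) * B.comp (-X) * (1 + X) ^ k)
      ((-1) ^ (e * ((p - 1) * p ^ s) + p ^ s) * A.comp (-X) * (1 + X) ^ k) hgh hh
    have h2 : ((-1 : ℤ[X]) ^ (e * ((p - 1) * p ^ s) + p ^ s)) * (-1) ^ (e * ((p - 1) * p ^ s) + p ^ s) = 1 := by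
      rw [← mul_pow]; simp
    rw [hk, pow_add]
    linear_combination ((-1 : ℤ[X]) ^ (e * ((p - 1) * p ^ s) + p ^ s) * (1 + X) ^ k) * h1
      - ((1 + X) ^ (e * ((p - 1) * p ^ s) + p ^ s) * (1 + X) ^ k) * h2

lemma not_stab_even (n m K p : ℕ) (hp : p.Prime) (hm : 0 < m) (hn : 0 < n) (hev : Even n)
    (hpn : p ∣ n) (hpm : p ∣ m)
    (hK : K + 1 = m.factorization p * Nat.totient (p ^ n.factorization p)
      + p ^ (n.factorization p - 1)) : ¬ Stab K n m := by
  have : Fact p.Prime := ⟨hp⟩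
  rintro ⟨U, V, W, h⟩
  obtain ⟨n', hn'⟩ : p ^ n.factorization p ∣ n := Nat.ordProj_dvd n p
  obtain ⟨m', hm'⟩ : p ^ m.factorization p ∣ m := Nat.ordProj_dvd m p
  have ht : 1 ≤ n.factorization p := (hp.dvd_iff_one_le_factorization hn.ne').1 hpn
  have he : 1 ≤ m.factorization p := (hp.dvd_iff_one_le_factorization hm.ne').1 hpm
  set t := n.factorization p with ht'
  set e := m.factorization p with he'
  obtain ⟨s, hs⟩ : ∃ s, t = s + 1 := ⟨t - 1, by omega⟩
  rw [hs] at hn' hK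
  rw [Nat.totient_prime_pow_succ hp, Nat.add_sub_cancel, mul_comm (p ^ s) (p - 1)] at hK
  obtain ⟨A, B, hAB⟩ := n1 p s e
  have h1 := congrArg (fun F => F.comp (-X)) h
  beta_reduce at h1
  rw [add_comp, add_comp, mul_comp, mul_comp, mul_comp, pow_comp, pow_comp, add_comp, one_comp,
    X_comp, sub_comp, pow_comp, X_comp, C_comp, one_comp, hev.neg_pow] at h1
  have hgs : ((X : ℤ[X]) ^ (p ^ (s + 1)) - 1) * (∑ j ∈ Finset.range n', ((X : ℤ[X]) ^ (p ^ (s + 1))) ^ j)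
      = X ^ n - 1 := by
    rw [mul_geom_sum, ← pow_mul, ← hn']
  have hneg : ∀ L : ℕ, (1 + -X : ℤ[X]) ^ L = (-1) ^ L * (X - 1) ^ L := by
    intro L
    rw [← mul_pow]; congr 1; ring
  rw [hneg, hneg, hK, hAB, ← hgs] at h1
  have hsq : ((-1 : ℤ[X]) ^ K) * (-1) ^ K = 1 := by rw [← mul_pow]; simp
  have hK' : K = e * ((p - 1) * p ^ s) + p ^ s - 1 := by omega
  have hCm : (C (m : ℤ) : ℤ[X]) = C ((p : ℤ) ^ e) * C (m' : ℤ) := by
    rw [← C_mul]; congr 1; rw [hm']; push_cast; ring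
  rw [hCm] at h1
  apply n2 p s e he
    ((-1) ^ K * ((-1) ^ (e * ((p - 1) * p ^ s) + p ^ s) * B * U.comp (-X)
      + (∑ j ∈ Finset.range n', ((X : ℤ[X]) ^ (p ^ (s + 1))) ^ j) * V.comp (-X)))
    ((-1) ^ K * ((-1) ^ (e * ((p - 1) * p ^ s) + p ^ s) * A * U.comp (-X)
      + C (m' : ℤ) * W.comp (-X)))
  rw [← hK']
  linear_combination ((-1 : ℤ[X]) ^ K) * h1 - (X - 1) ^ K * hsq

lemma stab_odd (n m M : ℕ) (hm : 0 < m) (hod : ¬ Even n)
    (h : m.factorization 2 ≤ M) : Stab M n m := by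
  have hod' : Odd n := Nat.not_even_iff_odd.1 hod
  apply stab_of_primes M n m hm
  intro p hp hpm
  by_cases h2 : p = 2
  · subst h2
    obtain ⟨k, hk⟩ := Nat.exists_eq_add_of_le h
    obtain ⟨D, hD⟩ : (X - 1 : ℤ[X]) ∣ ((1 + X) ^ (m.factorization 2) - C 2 ^ (m.factorization 2)) := by
      have h3 := sub_dvd_pow_sub_pow (1 + X : ℤ[X]) (C 2) (m.factorization 2)
      have h4 : (1 + X - C 2 : ℤ[X]) = X - 1 := by
        have : (C 2 : ℤ[X]) = 1 + 1 := by
          rw [← C_1, ← C_add]; rfl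
        rw [this]; ring
      rwa [h4] at h3
    apply comax 2 (m.factorization 2) n M hp (X - 1) (∑ j ∈ Finset.range n, (X : ℤ[X]) ^ j)
      (D * (1 + X) ^ k) ((1 + X) ^ k) (mul_geom_sum _ _)
    · have h5 := congrArg (eval (-1)) (mul_geom_sum (X : ℤ[X]) n)
      simp only [eval_mul, eval_sub, eval_X, eval_one, eval_pow, hod'.neg_one_pow] at h5
      have h6 : (∑ j ∈ Finset.range n, (X : ℤ[X]) ^ j).eval (-1) = 1 := by linarith
      rw [h6]
      norm_num
    · rw [hk, pow_add]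
      push_cast
      rw [C_pow]
      linear_combination (1 + X) ^ k * hD
  · apply comax p (m.factorization p) n M hp 1 (X ^ n - 1) ((1 + X) ^ M) 0 (one_mul _)
    · simp only [eval_sub, eval_pow, eval_X, eval_one, hod'.neg_one_pow]
      intro h3
      have h4 : (p : ℤ) ∣ 2 := by
        have h5 : (-1 - 1 : ℤ) = -2 := by norm_num
        rw [h5] at h3
        exact (dvd_neg.1 h3)
      have h6 : p ∣ 2 := by exact_mod_cast h4
      exact h2 ((Nat.prime_dvd_prime_iff_eq hp Nat.prime_two).1 h6)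
    · ring

lemma not_stab_odd (n m K : ℕ) (hK : K + 1 = m.factorization 2) : ¬ Stab K n m := by
  rintro ⟨U, V, W, h⟩
  have h1 := congrArg (eval 1) h
  simp only [eval_add, eval_mul, eval_sub, eval_X, eval_one, eval_pow, one_pow, sub_self, zero_mul,
    add_zero, eval_C] at h1
  obtain ⟨m', hm'⟩ : 2 ^ m.factorization 2 ∣ m := Nat.ordProj_dvd m 2
  rw [← hK] at hm'
  have h2 : (m : ℤ) = 2 ^ (K + 1) * m' := by exact_mod_cast hm'
  rw [h2, show (1 + 1 : ℤ) = 2 by norm_num] at h1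
  have h3 : (2 : ℤ) ^ (K + 1) ∣ 2 ^ K := ⟨eval 1 U + m' * eval 1 W, by rw [h1]; ring⟩
  have h4 : (2 : ℤ) ^ K ≠ 0 := by positivity
  rw [pow_succ] at h3
  obtain ⟨c, hc⟩ := h3
  have h5 : (2 : ℤ) ^ K * 1 = 2 ^ K * (2 * c) := by rw [mul_one]; linarith
  have h6 := mul_left_cancel₀ h4 h5
  omega

/-- **The largest pre-period of the cyclic sum map.** For all positive `m` and `n` the maximum of
the pre-periods `N(a)`, `a ∈ (ℤ/m)^n`, is `max 1 (v₂ m)` if `n` is odd, and the maximum of `1` and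
the numbers `v_p(m) φ(p^t) + p^(t-1)`, `t = v_p(n)`, over the primes `p` dividing both `m` and `n`,
if `n` is even. -/
theorem result (m n : ℕ) (hm : 0 < m) (hn : 0 < n) :
    IsGreatest (Set.range (preperiod m n))
      (if Even n then
        max 1 ((Nat.gcd m n).primeFactors.sup fun p =>
          m.factorization p * Nat.totient (p ^ n.factorization p) + p ^ (n.factorization p - 1))
      else max 1 (m.factorization 2)) := by
  by_cases hev : Even n
  · rw [if_pos hev]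
    set f : ℕ → ℕ := fun p =>
      m.factorization p * Nat.totient (p ^ n.factorization p) + p ^ (n.factorization p - 1) with hf
    set M := max 1 ((Nat.gcd m n).primeFactors.sup f) with hM
    have hub : ∀ a, preperiod m n a ≤ M := by
      intro a
      apply preperiod_le_of_stab m n hm hn M (by omega)
      apply stab_of_primes M n m hm
      intro p hp hpm
      apply stab_even n M p _ hp hn hev (by omega)
      intro hpn
      have : p ∈ (Nat.gcd m n).primeFactors := by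
        rw [Nat.mem_primeFactors]
        exact ⟨hp, Nat.dvd_gcd hpm hpn, (Nat.gcd_pos_of_pos_left _ hm).ne'⟩
      exact (Finset.le_sup (f := f) this).trans (le_max_right _ _)
    refine ⟨⟨Pi.single 0 1, le_antisymm (hub _) ?_⟩, ?_⟩
    · rcases Nat.lt_or_ge 1 M with h1 | h1
      · have h2 : M = (Nat.gcd m n).primeFactors.sup f := by
          rcases max_choice 1 ((Nat.gcd m n).primeFactors.sup f) with h | h
          · omega
          · rw [hM, h]
        have h3 : (Nat.gcd m n).primeFactors.Nonempty := by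
          rw [Finset.nonempty_iff_ne_empty]
          intro h
          rw [h, Finset.sup_empty] at h2
          simp at h2
          omega
        obtain ⟨p, hp, hpM⟩ := Finset.exists_mem_eq_sup _ h3 f
        rw [Nat.mem_primeFactors] at hp
        obtain ⟨hp1, hp2, _⟩ := hp
        have h4 := lt_preperiod_of_not_stab m n hm hn (M - 1)
          (not_stab_even n m (M - 1) p hp1 hm hn hev (hp2.trans (Nat.gcd_dvd_right _ _))
            (hp2.trans (Nat.gcd_dvd_left _ _)) (by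
              rw [show M - 1 + 1 = M by omega, h2, hpM]))
        omega
      · have := (preperiod_spec m n hm hn (Pi.single 0 1)).1
        omega
    · rintro _ ⟨a, rfl⟩
      exact hub a
  · rw [if_neg hev]
    set M := max 1 (m.factorization 2) with hM
    have hub : ∀ a, preperiod m n a ≤ M := fun a =>
      preperiod_le_of_stab m n hm hn M (by omega) (stab_odd n m M hm hev (le_max_right _ _)) a
    refine ⟨⟨Pi.single 0 1, le_antisymm (hub _) ?_⟩, ?_⟩
    · rcases Nat.lt_or_ge 1 M with h1 | h1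
      · have h2 : M = m.factorization 2 := by omega
        have h4 := lt_preperiod_of_not_stab m n hm hn (M - 1)
          (not_stab_odd n m (M - 1) (by omega))
        omega
      · have := (preperiod_spec m n hm hn (Pi.single 0 1)).1
        omega
    · rintro _ ⟨a, rfl⟩
      exact hub a

end Pool.Agent.Results.MP_6a5936_nt.PreperiodFormula
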